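import Pool.Agent.H276Z.Sok.Strong

set_option autoImplicit false
open Pool.Agent.H276Z.Sok

/-- If a Sokolov compact space `X` has a dense subset `D` such that `X` is `μ`-monolithic for every
cardinal `μ` of countable cofinality with `ℵ_ω ≤ μ < |D|` (no condition when `|D| ≤ ℵ_ω`), then
`C_p(X)` condenses into a Sigma-product of real lines. -/
theorem Pool.Agent.Results.MP_719d1c_gt.AMonolithic.result :
    ∀ (X : Type) [TopologicalSpace X] [CompactSpace X] [T2Space X], IsSokolov X →
      ∀ D : Set X, Dense D →
      (∀ μ : Cardinal.{0}, Cardinal.aleph Ordinal.omega0 ≤ μ → μ < Cardinal.mk D →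
        μ.ord.cof = Cardinal.aleph0 → IsMonolithic X μ) →
      ∃ (κ : Type) (Φ : {g : X → ℝ // Continuous g} → (κ → ℝ)),
        Continuous Φ ∧ Function.Injective Φ ∧ ∀ g, (Function.support (Φ g)).Countable :=
  fun X _ _ _ h D hD hm => main' X h D hD hm
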